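import Pool.Agent.Helper78.UF.Defs
import Pool.Agent.LinAlg.Height

/-!
Polynomial time of the lattice reduction.  All intermediate results are clamped, so that no
estimate of the size of the numbers is needed.
-/

set_option autoImplicit false

namespace Pool.Agent.Helper78.UF

open Pool.Agent.PolyTime

section

variable {α β σ : Type} [PEnc α] [PEnc β] [PEnc σ]

/-! ### clamped folds and iterations -/

@[fun_prop]
theorem pt_clamp {K : α → ℕ} {d x : α → σ} (hK : PolyTime K) (hd : PolyTime d)
    (hx : PolyTime x) : PolyTime (fun a => clamp (K a) (d a) (x a)) := by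
  unfold clamp
  fun_prop

theorem size_clamp_le (K : ℕ) (d x : σ) : size (clamp K d x) ≤ K + size d := by
  unfold clamp
  by_cases h : size x ≤ K
  · simp only [h, decide_true, cond_true]
    omega
  · simp only [h, decide_false, cond_false]
    omega

omit [PEnc β] in
theorem size_foldlC_le (K : ℕ) (d : σ) (h : σ → β → σ) (s : σ) (l : List β) :
    size (foldlC K d h s l) ≤ size s + (K + size d) := by
  unfold foldlC
  cases l using List.reverseRecOn with
  | nil => exact Nat.le_add_right _ _
  | append_singleton l b =>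
    rw [List.foldl_append, List.foldl_cons, List.foldl_nil]
    exact (size_clamp_le _ _ _).trans (Nat.le_add_left _ _)

theorem pt_foldlC {K : α → ℕ} {d s : α → σ} {l : α → List β} {h : α → σ → β → σ}
    (hK : PolyTime K) (hK' : PBd K) (hd : PolyTime d) (hs : PolyTime s) (hl : PolyTime l)
    (hh : PolyTime (fun q : α × σ × β => h q.1 q.2.1 q.2.2)) :
    PolyTime (fun a => foldlC (K a) (d a) (h a) (s a) (l a)) := by
  refine PolyTime.foldl (h := fun a s b => clamp (K a) (d a) (h a s b))
    (B := fun a => size (s a) + (K a + size (d a))) hl hs ?_ ?_ ?_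
  · exact pt_clamp (hK.comp PolyTime.fst') (hd.comp PolyTime.fst') hh
  · exact hs.pbd.add (hK'.add hd.pbd)
  · intro a i
    exact size_foldlC_le _ _ _ _ _

theorem size_iterC_le (K : ℕ) (d : σ) (f : σ → σ) (n : ℕ) (s : σ) :
    size (iterC K d f n s) ≤ size s + (K + size d) := by
  unfold iterC
  cases n with
  | zero => exact Nat.le_add_right _ _
  | succ n =>
    rw [Function.iterate_succ_apply']
    exact (size_clamp_le _ _ _).trans (Nat.le_add_left _ _)

theorem pt_iterC {K n : α → ℕ} {d s : α → σ} {f : α → σ → σ} (hK : PolyTime K) (hK' : PBd K)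
    (hd : PolyTime d) (hf : PolyTime (fun q : α × σ => f q.1 q.2)) (hn : PolyTime n)
    (hn' : PBd n) (hs : PolyTime s) :
    PolyTime (fun a => iterC (K a) (d a) (f a) (n a) (s a)) := by
  refine PolyTime.iterate (f := fun a x => clamp (K a) (d a) (f a x))
    (B := fun a => size (s a) + (K a + size (d a))) ?_ hn hn' hs ?_ ?_
  · exact pt_clamp (hK.comp PolyTime.fst') (hd.comp PolyTime.fst') hf
  · exact hs.pbd.add (hK'.add hd.pbd)
  · intro a i _
    exact size_iterC_le _ _ _ _ _

/-! ### vectors -/

theorem size_rat_sum_le (l : List ℚ) :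
    size l.sum ≤ 3 * (size l * (size l + 1) + 1) + 7 := by
  refine (LinAlg.size_rat_le _).trans ?_
  have h1 := LinAlg.hb_list_sum l (h := size l)
    (fun x hx => (LinAlg.hb_le_size x).trans (size_mem_le hx))
  have h2 := Nat.mul_le_mul_right (size l + 1) (length_le_size l)
  omega

@[fun_prop]
theorem pt_ratSum {l : α → List ℚ} (hl : PolyTime l) : PolyTime (fun a => (l a).sum) := by
  refine (PolyTime.foldr (s := fun _ => (0 : ℚ)) (h := fun _ m n => m + n) hl
    (PolyTime.const 0) (by fun_prop)
    (B := fun a => 3 * (size (l a) * (size (l a) + 1) + 1) + 7) ?_ ?_).congr (fun a => rfl)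
  · exact ((PBd.const 3).mul ((hl.pbd.mul (hl.pbd.add (PBd.const 1))).add (PBd.const 1))).add
      (PBd.const 7)
  · intro a i
    refine (size_rat_sum_le _).trans ?_
    have h1 : size ((l a).drop i) ≤ size (l a) := size_sublist (List.drop_sublist _ _)
    have h2 := Nat.mul_le_mul h1 (Nat.add_le_add_right h1 1)
    omega

@[fun_prop]
theorem pt_dotZ {u v : α → List ℤ} (hu : PolyTime u) (hv : PolyTime v) :
    PolyTime (fun a => dotZ (u a) (v a)) :=
  PolyTime.int_sum (PolyTime.zipWith (f := fun _ x y => x * y) hu hv (by fun_prop))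

@[fun_prop]
theorem pt_dotQ {u v : α → List ℚ} (hu : PolyTime u) (hv : PolyTime v) :
    PolyTime (fun a => dotQ (u a) (v a)) :=
  pt_ratSum (PolyTime.zipWith (f := fun _ x y => x * y) hu hv (by fun_prop))

@[fun_prop]
theorem pt_toQ {u : α → List ℤ} (hu : PolyTime u) : PolyTime (fun a => toQ (u a)) := by
  have h : PolyTime (fun q : α × ℤ => (q.2 : ℚ)) := by fun_prop
  exact PolyTime.map (g := fun _ (x : ℤ) => (x : ℚ)) hu h

@[fun_prop]
theorem pt_subQ {v u : α → List ℚ} {r : α → ℚ} (hv : PolyTime v) (hr : PolyTime r)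
    (hu : PolyTime u) : PolyTime (fun a => subQ (v a) (r a) (u a)) :=
  PolyTime.zipWith (f := fun a x y => x - r a * y) hv hu
    (PolyTime.rat_sub (by fun_prop) (PolyTime.rat_mul (hr.comp PolyTime.fst') (by fun_prop)))

@[fun_prop]
theorem pt_subZ {v u : α → List ℤ} {r : α → ℤ} (hv : PolyTime v) (hr : PolyTime r)
    (hu : PolyTime u) : PolyTime (fun a => subZ (v a) (r a) (u a)) :=
  PolyTime.zipWith (f := fun a x y => x - r a * y) hv hu
    (PolyTime.int_sub (by fun_prop) (PolyTime.int_mul (hr.comp PolyTime.fst') (by fun_prop)))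

@[fun_prop]
theorem pt_coef {v c : α → List ℚ} (hv : PolyTime v) (hc : PolyTime c) :
    PolyTime (fun a => coef (v a) (c a)) := by
  unfold coef
  fun_prop

@[fun_prop]
theorem pt_rnd {q : α → ℚ} (hq : PolyTime q) : PolyTime (fun a => rnd (q a)) := by
  unfold rnd
  fun_prop

/-! ### Gram–Schmidt and size reduction -/

theorem pt_star {K : α → ℕ} {P : α → List (List ℤ × List ℚ)} {b : α → List ℤ}
    (hK : PolyTime K) (hK' : PBd K) (hP : PolyTime P) (hb : PolyTime b) :
    PolyTime (fun a => star (K a) (P a) (b a)) := by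
  have h1 : PolyTime (fun q : α × List ℚ × List ℤ × List ℚ => b q.1) := hb.comp PolyTime.fst'
  have h2 : PolyTime (fun q : α × List ℚ × List ℤ × List ℚ =>
      subQ q.2.1 (coef (toQ (b q.1)) q.2.2.2) q.2.2.2) :=
    pt_subQ (by fun_prop) (pt_coef (pt_toQ h1) (by fun_prop)) (by fun_prop)
  exact pt_foldlC (d := fun _ => []) (s := fun a => toQ (b a)) (l := P)
    (h := fun a v p => subQ v (coef (toQ (b a)) p.2) p.2) hK hK'
    (PolyTime.const []) (pt_toQ hb) hP h2

theorem pt_red {K : α → ℕ} {P : α → List (List ℤ × List ℚ)} {b : α → List ℤ}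
    (hK : PolyTime K) (hK' : PBd K) (hP : PolyTime P) (hb : PolyTime b) :
    PolyTime (fun a => red (K a) (P a) (b a)) := by
  have h2 : PolyTime (fun q : α × List ℤ × List ℤ × List ℚ =>
      subZ q.2.1 (rnd (coef (toQ q.2.1) q.2.2.2)) q.2.2.1) :=
    pt_subZ (by fun_prop) (pt_rnd (pt_coef (pt_toQ (by fun_prop)) (by fun_prop))) (by fun_prop)
  exact pt_foldlC (d := fun _ => []) (s := b) (l := fun a => (P a).reverse)
    (h := fun _ v p => subZ v (rnd (coef (toQ v) p.2)) p.1) hK hK'
    (PolyTime.const []) hb hP.reverse h2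

theorem pt_pass {K : α → ℕ} {B : α → List (List ℤ)} (hK : PolyTime K) (hK' : PBd K)
    (hB : PolyTime B) : PolyTime (fun a => pass (K a) (B a)) := by
  unfold pass
  refine pt_foldlC (h := fun a P b => P ++ [(red (K a) P b, star (K a) P b)]) hK hK'
    (PolyTime.const []) (PolyTime.const []) hB ?_
  have h1 : PolyTime (fun q : α × List (List ℤ × List ℚ) × List ℤ => K q.1) :=
    hK.comp PolyTime.fst'
  have h2 : PBd (fun q : α × List (List ℤ × List ℚ) × List ℤ => K q.1) :=
    hK'.comp PolyTime.fst'
  have h3 : PolyTime (fun q : α × List (List ℤ × List ℚ) × List ℤ =>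
      red (K q.1) q.2.1 q.2.2) := pt_red h1 h2 (by fun_prop) (by fun_prop)
  have h4 : PolyTime (fun q : α × List (List ℤ × List ℚ) × List ℤ =>
      star (K q.1) q.2.1 q.2.2) := pt_star h1 h2 (by fun_prop) (by fun_prop)
  fun_prop

@[fun_prop]
theorem pt_bad {p q : α → List ℤ × List ℚ} (hp : PolyTime p) (hq : PolyTime q) :
    PolyTime (fun a => bad (p a) (q a)) := by
  unfold bad
  have h4 : PolyTime (fun _ : α => (4 : ℚ)) := PolyTime.const 4
  have h3 : PolyTime (fun _ : α => (3 : ℚ)) := PolyTime.const 3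
  fun_prop

@[fun_prop]
theorem pt_swapAt {B : α → List (List ℤ)} {i : α → ℕ} (hB : PolyTime B) (hi : PolyTime i) :
    PolyTime (fun a => swapAt (B a) (i a)) := by
  unfold swapAt
  fun_prop

theorem pt_firstBad {P : α → List (List ℤ × List ℚ)} (hP : PolyTime P) :
    PolyTime (fun a => firstBad (P a)) := by
  unfold firstBad
  have h1 : PolyTime (fun a => List.range ((P a).length - 1)) :=
    PolyTime.range (by fun_prop) ((pbd_length hP).mono (fun a => Nat.sub_le _ _))
  have h2 : PolyTime (fun q : α × ℕ => P q.1) := hP.comp PolyTime.fst'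
  refine PolyTime.find?
    (p := fun a i => bad ((P a).getD i ([], [])) ((P a).getD (i + 1) ([], []))) h1 ?_
  exact pt_bad (PolyTime.getD h2 (by fun_prop) (by fun_prop))
    (PolyTime.getD h2 (by fun_prop) (by fun_prop))

theorem pt_lllStep {K : α → ℕ} {s : α → List (List ℤ) × Bool} (hK : PolyTime K)
    (hK' : PBd K) (hs : PolyTime s) : PolyTime (fun a => lllStep (K a) (s a)) := by
  unfold lllStep
  have h1 : PolyTime (fun a => pass (K a) (s a).1) := pt_pass hK hK' hs.fst
  have h2 : PolyTime (fun a => (pass (K a) (s a).1).map Prod.fst) :=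
    PolyTime.map (g := fun _ p => p.1) h1 (by fun_prop)
  have h3 : PolyTime (fun q : α × ℕ => (pass (K q.1) (s q.1).1).map Prod.fst) :=
    h2.comp PolyTime.fst'
  refine PolyTime.cond hs.snd hs (PolyTime.option_elim
    (g := fun a i => (swapAt ((pass (K a) (s a).1).map Prod.fst) i, false))
    (pt_firstBad h1) (by fun_prop) ?_)
  exact PolyTime.prodMk (pt_swapAt h3 PolyTime.snd') (PolyTime.const false)

/-- The lattice reduction runs in polynomial time. -/
theorem pt_lll {K T : α → ℕ} {B : α → List (List ℤ)} (hK : PolyTime K) (hK' : PBd K)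
    (hT : PolyTime T) (hT' : PBd T) (hB : PolyTime B) :
    PolyTime (fun a => lll (K a) (T a) (B a)) := by
  unfold lll
  refine PolyTime.fst (pt_iterC (f := fun a s => lllStep (K a) s) hK hK' (PolyTime.const _) ?_
    hT hT' (PolyTime.prodMk hB (PolyTime.const false)))
  exact pt_lllStep (hK.comp PolyTime.fst') (hK'.comp PolyTime.fst') PolyTime.snd'

end

end Pool.Agent.Helper78.UF
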